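import Pool.Agent.H95.FI.Defs

/-! Crew FI, part HD (helper61) -/

open MvPolynomial

namespace H61.FI
open H95.FG H95.FI

lemma cv_cv {n : ℕ} (z : Fin n → ℂ) : cv (cv z) = z := by
  funext k
  simp [cv]

lemma eval_cj {n : ℕ} (f : Pn n) (Y : Fin n → ℂ) :
    eval Y (cj f) = (starRingEnd ℂ) (eval (cv Y) f) := by
  unfold cj
  rw [eval_map]
  have h := eval₂_comp_left (starRingEnd ℂ) (RingHom.id ℂ) (cv Y) f
  have h1 : (starRingEnd ℂ) (eval₂ (RingHom.id ℂ) (cv Y) f) = (starRingEnd ℂ) (eval (cv Y) f) := rfl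
  rw [← h1, h]
  have h2 : (⇑(starRingEnd ℂ) ∘ cv Y) = Y := by
    funext k
    simp [cv]
  rw [h2, RingHom.comp_id]

/-- partial evaluation in the second group of variables -/
noncomputable def pe {n : ℕ} (A : Qn n) (Y : Fin n → ℂ) : Pn n :=
  bind₁ (Sum.elim X (fun k => C (Y k))) A

lemma eval_pe {n : ℕ} (A : Qn n) (Y w : Fin n → ℂ) : eval w (pe A Y) = AA A w Y := by
  unfold pe AA
  have h := eval₂Hom_bind₁ (RingHom.id ℂ) w (Sum.elim X (fun k => C (Y k))) A
  have h1 : eval w (bind₁ (Sum.elim X (fun k => C (Y k))) A) =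
    eval₂Hom (RingHom.id ℂ) w (bind₁ (Sum.elim X (fun k => C (Y k))) A) := rfl
  rw [h1, h]
  have h2 : (fun i => (eval₂Hom (RingHom.id ℂ) w)
      ((Sum.elim X (fun k => C (Y k)) : Fin n ⊕ Fin n → Pn n) i)) = Sum.elim w Y := by
    funext i
    rcases i with i | i <;> simp
  rw [h2]
  rfl

theorem t_HD (hSCH : S_SCH) : S_HD := by
  classical
  intro n s A hher hex hall
  obtain ⟨z, Y, hM⟩ := hex
  have hdec : ∀ w W, AA A w W = RR A z Y w W := fun w W =>
    hSCH n s A z Y w W hM (hall _ _)
  set z' : Fin s → Fin n → ℂ := fun a => cv (z a) with hz'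
  set N : Matrix (Fin s) (Fin s) ℂ := VM A z z' with hN
  have hNe : ∀ a b, N a b = AA A (z a) (cv (z b)) := fun a b => rfl
  -- `N` is nonsingular
  have hNdet : N.det ≠ 0 := by
    intro h0
    obtain ⟨t, ht0, ht⟩ := Matrix.exists_mulVec_eq_zero_iff.2 h0
    have h1 : ∀ w, ∑ b, AA A w (cv (z b)) * t b = 0 := by
      intro w
      have h2 : ∀ b, AA A w (cv (z b)) * t b =
          ∑ i, ∑ j, AA A w (Y j) * (VM A z Y)⁻¹ j i * (N i b * t b) := by
        intro b
        rw [hdec w (cv (z b))]
        unfold RR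
        rw [Finset.sum_mul]
        refine Finset.sum_congr rfl fun i _ => ?_
        rw [Finset.sum_mul]
        refine Finset.sum_congr rfl fun j _ => ?_
        rw [hNe]
        ring
      simp only [h2]
      rw [Finset.sum_comm]
      refine Finset.sum_eq_zero fun i _ => ?_
      rw [Finset.sum_comm]
      refine Finset.sum_eq_zero fun j _ => ?_
      rw [← Finset.mul_sum]
      have h3 : ∑ b, N i b * t b = 0 := congrFun ht i
      rw [h3, mul_zero]
    have h4 : ∀ j, ∑ b, (starRingEnd ℂ) (t b) * (VM A z Y) b j = 0 := by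
      intro j
      have h5 := congrArg (starRingEnd ℂ) (h1 (cv (Y j)))
      rw [map_sum, map_zero] at h5
      rw [← h5]
      refine Finset.sum_congr rfl fun b _ => ?_
      rw [map_mul, ← hher, cv_cv, cv_cv, mul_comm]
      rfl
    have h6 : Matrix.vecMul (fun b => (starRingEnd ℂ) (t b)) (VM A z Y) = 0 := by
      funext j
      exact h4 j
    have h7 : (fun b => (starRingEnd ℂ) (t b)) = 0 := by
      by_contra hne
      exact hM (Matrix.exists_vecMul_eq_zero_iff.1 ⟨_, hne, h6⟩)
    apply ht0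
    funext b
    have h8 := congrFun h7 b
    simpa using h8
  have hher2 : N.IsHermitian := by
    ext a b
    rw [Matrix.conjTranspose_apply, hNe, hNe]
    have h := hher (z b) (cv (z a))
    rw [cv_cv] at h
    exact h.symm
  have hdec2 : ∀ w W, AA A w W = ∑ i, ∑ j, AA A w (z' j) * N⁻¹ j i * AA A (z i) W := fun w W =>
    hSCH n s A z z' w W hNdet (hall _ _)
  have hH : (N⁻¹).IsHermitian := hher2.inv
  have hHdet : (N⁻¹).det ≠ 0 :=
    (Matrix.isUnit_nonsing_inv_det N (isUnit_iff_ne_zero.2 hNdet)).ne_zero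
  set U : Matrix (Fin s) (Fin s) ℂ := (hH.eigenvectorUnitary : Matrix (Fin s) (Fin s) ℂ) with hU
  set ev' : Fin s → ℝ := hH.eigenvalues with hev
  have hspec : N⁻¹ = U * Matrix.diagonal (RCLike.ofReal ∘ ev') * star U := by
    have h := hH.spectral_theorem
    rw [Unitary.conjStarAlgAut_apply] at h
    exact h
  have hUU : star U * U = 1 := by
    rw [hU]
    exact Unitary.coe_star_mul_self _
  have hev0 : ∀ i, ev' i ≠ 0 := by
    intro i h0
    apply hHdet
    rw [hH.det_eq_prod_eigenvalues]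
    apply Finset.prod_eq_zero (Finset.mem_univ i)
    have : hH.eigenvalues i = 0 := h0
    rw [this]
    simp
  set g : Fin s → Pn n := fun j => pe A (z' j) with hg
  set f : Fin s → Pn n := fun k => ∑ j, C (U j k) * g j with hf
  have hfe : ∀ w k, eval w (f k) = ∑ j, U j k * AA A w (z' j) := by
    intro w k
    simp only [hf, hg, map_sum, map_mul, eval_C, eval_pe]
  refine ⟨f, ev', ?_, hev0, ?_⟩
  · rw [Fintype.linearIndependent_iff]
    intro c hc
    have h1 : ∀ b, ∑ j, N b j * (∑ k, U j k * c k) = 0 := by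
      intro b
      have h2 := congrArg (eval (z b)) hc
      rw [map_sum, map_zero] at h2
      rw [← h2]
      simp only [smul_eval, hfe, Finset.mul_sum]
      rw [Finset.sum_comm]
      refine Finset.sum_congr rfl fun k _ => ?_
      refine Finset.sum_congr rfl fun j _ => ?_
      rw [hNe]
      ring
    have h3 : (fun j => ∑ k, U j k * c k) = 0 := by
      by_contra hne
      apply hNdet
      exact Matrix.exists_mulVec_eq_zero_iff.1 ⟨_, hne, by funext b; exact h1 b⟩
    have h4 : Matrix.mulVec U c = 0 := h3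
    have h5 : Matrix.mulVec (star U * U) c = 0 := by
      rw [← Matrix.mulVec_mulVec, h4, Matrix.mulVec_zero]
    rw [hUU, Matrix.one_mulVec] at h5
    intro i
    exact congrFun h5 i
  · apply MvPolynomial.funext
    intro x
    obtain ⟨w, W, rfl⟩ : ∃ w W : Fin n → ℂ, x = Sum.elim w W :=
      ⟨x ∘ Sum.inl, x ∘ Sum.inr, (Sum.elim_comp_inl_inr x).symm⟩
    have h1 : eval (Sum.elim w W) A = AA A w W := rfl
    rw [h1, hdec2]
    have h2 : ∀ i, AA A (z i) W = (starRingEnd ℂ) (AA A (cv W) (z' i)) := by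
      intro i
      have h := hher (z i) W
      rw [h]
      simp
    have h3 : ∀ j i, N⁻¹ j i = ∑ k, U j k * (ev' k : ℂ) * (starRingEnd ℂ) (U i k) := by
      intro j i
      conv_lhs => rw [hspec]
      rw [Matrix.mul_apply]
      refine Finset.sum_congr rfl fun k _ => ?_
      rw [Matrix.mul_diagonal]
      rfl
    simp only [map_sum, map_mul, eval_C, eval_rename, Sum.elim_comp_inl, Sum.elim_comp_inr,
      eval_cj, hfe, h2, h3, Finset.mul_sum, Finset.sum_mul]
    have h4 : ∀ (G : Fin s → Fin s → Fin s → ℂ), ∑ i, ∑ j, ∑ k, G i j k =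
        ∑ k, ∑ i, ∑ j, G i j k := by
      intro G
      have : ∀ i, ∑ j, ∑ k, G i j k = ∑ k, ∑ j, G i j k := fun i => Finset.sum_comm
      simp only [this]
      exact Finset.sum_comm
    rw [h4]
    refine Finset.sum_congr rfl fun k _ => ?_
    refine Finset.sum_congr rfl fun i _ => ?_
    refine Finset.sum_congr rfl fun j _ => ?_
    ring

end H61.FI
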